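import Mathlib
import Pool.Agent.Helper87.MX.Fr
import Pool.Agent.Helper40.LPA.Trace
import Pool.Agent.Helper58.FX.P.ConstInv

/-!
# MixingRates, TL1: the measure of an extreme trace is invariant and ergodic
-/

set_option autoImplicit false

open MeasureTheory Filter Helper17.FU Helper17.FUGroup Helper91.TTT
open scoped ENNReal

namespace Pool.Agent.Helper35.MX

open Pool.Agent.Helper87.MX (Inv Ergo cf)
open Helper58.FX (UU ev ft Erg T)

abbrev Tor := AddCircle (1 : ℝ)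

private lemma fix {μ : Measure Tor} {n : ℕ} (h : MeasurePreserving (T n) μ μ) {f : Tor → ℂ}
    (hm : MemLp f 2 μ) (hf : ∀ᵐ x ∂μ, f (n • x) = f x) : UU h hm.toLp = hm.toLp := by
  apply Lp.ext
  have e1 : (UU h hm.toLp : Tor → ℂ) =ᵐ[μ] (hm.toLp : Tor → ℂ) ∘ T n :=
    Lp.coeFn_compMeasurePreserving _ h
  have e2 : (hm.toLp : Tor → ℂ) ∘ T n =ᵐ[μ] f ∘ T n :=
    h.quasiMeasurePreserving.ae_eq_comp hm.coeFn_toLp
  have e3 : f ∘ T n =ᵐ[μ] f := by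
    filter_upwards [hf] with x hx
    exact hx
  exact e1.trans (e2.trans (e3.trans hm.coeFn_toLp.symm))

/-- ergodicity from the averages of the coefficients -/
theorem ergo_of_erg {μ : Measure Tor} [IsProbabilityMeasure μ] (h2 : Inv 2 μ) (h3 : Inv 3 μ)
    (hE : Erg (ft μ)) : Ergo μ := by
  intro f hf hb hf2 hf3
  have hm : MemLp f 2 μ := MemLp.of_bound hf.aestronglyMeasurable 1 (Eventually.of_forall hb)
  obtain ⟨c, hc⟩ := Helper58.FXP.H85.const_of_inv (μ := μ) h2 h3 hE hm.toLp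
    (fix h2 hm hf2) (fix h3 hm hf3)
  refine ⟨c, ?_⟩
  have e1 : (hm.toLp : Tor → ℂ) =ᵐ[μ] c • (ev μ 0 : Tor → ℂ) := by
    rw [hc]
    exact Lp.coeFn_smul c (ev μ 0)
  filter_upwards [hm.coeFn_toLp, e1, Helper58.FX.St.ev_coe (μ := μ) 0] with x a1 a2 a3
  rw [← a1, a2, Pi.smul_apply, a3]
  simp

variable {s2 s3 t : Equiv.Perm ℚ}

/-- **TL1.** The measure of an extreme trace is invariant and ergodic. -/
theorem ergo_of_extreme (h2 : ∀ x : ℚ, s2 x = 2 * x) (h3 : ∀ x : ℚ, s3 x = 3 * x)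
    (ht : ∀ x : ℚ, t x = x + 1) {τ : GG s2 s3 t} (hτ : (τ : Equiv.Perm ℚ) = t)
    {φ : GG s2 s3 t → ℂ} (hφ : φ ∈ Set.extremePoints ℝ (TR (GG s2 s3 t)))
    {μ : Measure Tor} [IsProbabilityMeasure μ]
    (hμ : ∀ n : ℤ, ∫ x, (fourier n x : ℂ) ∂μ = φ (τ ^ n)) : Inv 2 μ ∧ Inv 3 μ ∧ Ergo μ := by
  obtain ⟨μ', hμ'p, hμ', hm2, hm3⟩ := Pool.Agent.Helper40.TMA.exists_measure h2 h3 ht hτ hφ
  have h5 : μ = μ' := by
    apply Helper17.TranslM.eq_of_fourier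
    intro m
    rw [hμ' m]
    exact hμ m
  have hi2 : Inv 2 μ := by rw [h5]; exact hm2
  have hi3 : Inv 3 μ := by rw [h5]; exact hm3
  exact ⟨hi2, hi3, ergo_of_erg hi2 hi3
    (Pool.Agent.Helper40.TMA.erg_of_extreme h2 h3 ht hτ hφ hμ)⟩

end Pool.Agent.Helper35.MX
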