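import Mathlib
import Pool.Agent.Helper35.MX.Erg

/-!
# MixingRates, items (7) and (8): windows
-/

set_option autoImplicit false

open MeasureTheory Filter Helper17.FU Helper17.FUGroup Helper91.TTT
open scoped ENNReal

namespace Pool.Agent.Helper35.MX

open Pool.Agent.Helper87.MX
open Pool.Agent.Helper25.MX (psi psi_summable)

variable {s2 s3 t : Equiv.Perm ℚ}

/-- (1) ⇒ (8) -/
theorem one_eight (hW5 : S_W5) (h2 : ∀ x : ℚ, s2 x = 2 * x) (h3 : ∀ x : ℚ, s3 x = 3 * x)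
    (ht : ∀ x : ℚ, t x = x + 1) {τ : GG s2 s3 t} (hτ : (τ : Equiv.Perm ℚ) = t)
    {φ : GG s2 s3 t → ℂ} (hφ : φ ∈ Set.extremePoints ℝ (TR (GG s2 s3 t)))
    {μ : Measure (AddCircle (1 : ℝ))} [IsProbabilityMeasure μ]
    (hμ : ∀ n : ℤ, ∫ x, (fourier n x : ℂ) ∂μ = φ (τ ^ n))
    (hfd : FiniteDimensional ℂ (Submodule.span ℂ {F : GG s2 s3 t → ℂ | ∃ n : GG s2 s3 t,
        (∃ r : ℚ, ∀ x : ℚ, (n : Equiv.Perm ℚ) x = x + r) ∧ F = fun x => φ (n * x)})) :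
    ∀ (k : ℕ) (η : ℝ), 1 ≤ k → φ (τ ^ k) ≠ 0 → 0 < η →
      ∃ F : ℕ → Finset (ℕ × ℕ), (∀ j, Win η j (F j)) ∧
        ∀ᶠ j in Filter.atTop, ∀ᵐ x ∂μ, wav k (F j) x = φ (τ ^ k) := by
  intro k η hk _ hη
  obtain ⟨hi2, hi3, hE⟩ := ergo_of_extreme h2 h3 ht hτ hφ hμ
  obtain ⟨F, hF, j₀, hj₀⟩ := hW5 μ inferInstance hi2 hi3 hE
    (Pool.Agent.Helper40.LPA.finite_of_fd ht hτ hμ hfd) η k hη hk
  refine ⟨F, hF, ?_⟩
  filter_upwards [eventually_ge_atTop j₀] with j hj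
  have hc : cf μ k = φ (τ ^ k) := by
    unfold cf
    rw [hμ, zpow_natCast]
  rw [← hc]
  exact hj₀ j hj

/-- (8) ⇒ (7) -/
theorem eight_seven {G : Type*} [Group G] {τ : G} {φ : G → ℂ}
    {μ : Measure (AddCircle (1 : ℝ))} [IsProbabilityMeasure μ]
    (h : (∃ k : ℕ, 1 ≤ k ∧ φ (τ ^ k) ≠ 0) ∧ ∀ (k : ℕ) (η : ℝ), 1 ≤ k → φ (τ ^ k) ≠ 0 → 0 < η →
      ∃ F : ℕ → Finset (ℕ × ℕ), (∀ j, Win η j (F j)) ∧
        ∀ᶠ j in Filter.atTop, ∀ᵐ x ∂μ, wav k (F j) x = φ (τ ^ k)) :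
    ∃ (k : ℕ) (η : ℝ) (F : ℕ → Finset (ℕ × ℕ)), 1 ≤ k ∧ φ (τ ^ k) ≠ 0 ∧ 0 < η ∧
      Real.pi * (Real.exp η - 1) ≤ ‖φ (τ ^ k)‖ / 8 ∧ (∀ j, Win η j (F j)) ∧
      Summable fun j => μ.real {x | ‖φ (τ ^ k)‖ / 8 ≤ ‖wav k (F j) x - φ (τ ^ k)‖} := by
  obtain ⟨⟨k, hk, hc⟩, h⟩ := h
  have hc0 : 0 < ‖φ (τ ^ k)‖ := norm_pos_iff.2 hc
  have hu : 0 < ‖φ (τ ^ k)‖ / (8 * Real.pi) := by
    have := Real.pi_pos
    positivity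
  obtain ⟨F, hF, hev⟩ := h k (Real.log (1 + ‖φ (τ ^ k)‖ / (8 * Real.pi))) hk hc
    (Real.log_pos (by linarith))
  refine ⟨k, Real.log (1 + ‖φ (τ ^ k)‖ / (8 * Real.pi)), F, hk, hc, Real.log_pos (by linarith),
    ?_, hF, ?_⟩
  · rw [Real.exp_log (by linarith), add_sub_cancel_left]
    have := Real.pi_pos
    apply le_of_eq
    field_simp
  · obtain ⟨j₀, hj₀⟩ := eventually_atTop.1 hev
    refine summable_of_ne_finset_zero (s := Finset.range j₀) fun j hj => ?_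
    rw [Finset.mem_range, not_lt] at hj
    rw [measureReal_eq_zero_iff, measure_eq_zero_iff_ae_notMem]
    filter_upwards [hj₀ j hj] with x hx hx2
    rw [hx, sub_self, norm_zero] at hx2
    linarith

/-- (7) ⇒ (1) -/
theorem seven_one (hWT : S_WT) (h2 : ∀ x : ℚ, s2 x = 2 * x) (h3 : ∀ x : ℚ, s3 x = 3 * x)
    (ht : ∀ x : ℚ, t x = x + 1) {τ : GG s2 s3 t} (hτ : (τ : Equiv.Perm ℚ) = t)
    {φ : GG s2 s3 t → ℂ} (hφ : φ ∈ Set.extremePoints ℝ (TR (GG s2 s3 t)))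
    {μ : Measure (AddCircle (1 : ℝ))} [IsProbabilityMeasure μ]
    (hμ : ∀ n : ℤ, ∫ x, (fourier n x : ℂ) ∂μ = φ (τ ^ n))
    (h : ∃ (k : ℕ) (η : ℝ) (F : ℕ → Finset (ℕ × ℕ)), 1 ≤ k ∧ φ (τ ^ k) ≠ 0 ∧ 0 < η ∧
      Real.pi * (Real.exp η - 1) ≤ ‖φ (τ ^ k)‖ / 8 ∧ (∀ j, Win η j (F j)) ∧
      Summable fun j => μ.real {x | ‖φ (τ ^ k)‖ / 8 ≤ ‖wav k (F j) x - φ (τ ^ k)‖}) :
    FiniteDimensional ℂ (Submodule.span ℂ {F : GG s2 s3 t → ℂ | ∃ n : GG s2 s3 t,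
        (∃ r : ℚ, ∀ x : ℚ, (n : Equiv.Perm ℚ) x = x + r) ∧ F = fun x => φ (n * x)}) := by
  obtain ⟨k, η, F, hk, hφk, hη, hηk, hF, hs⟩ := h
  obtain ⟨hi2, hi3, -⟩ := ergo_of_extreme h2 h3 ht hτ hφ hμ
  have hc : cf μ k = φ (τ ^ k) := by
    unfold cf
    rw [hμ, zpow_natCast]
  by_contra hfd
  rw [← hc] at hηk hs hφk
  obtain ⟨x, hx⟩ := hWT μ inferInstance hi2 hi3 η k hη hk hφk hηk ⟨F, hF,
    psi_summable (fun j => measureReal_nonneg) (fun j => measureReal_le_one) hs⟩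
  exact hx (Pool.Agent.Helper40.LPA.no_atoms_of_infinite h2 h3 ht hτ hφ hμ hfd x)

end Pool.Agent.Helper35.MX
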