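import Mathlib
import Pool.Agent.Helper87.MX.Fr5
import Pool.Agent.Helper87.MX.FinalSt5
import Pool.Agent.Helper40.TMA.Exotic

/-!
# MixingRates v5, clause (C) at trace level
-/

set_option autoImplicit false

open MeasureTheory Filter Helper17.FU Helper17.FUGroup Helper91.TTT
open scoped ENNReal ComplexOrder

namespace Pool.Agent.Helper35.MX

open Pool.Agent.Helper87.MX
open Pool.Agent.Helper87.MX.FinalSt5 (traces Mixing4 Rate)

variable {s2 s3 t : Equiv.Perm ℚ}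

/-- a probability measure is invariant if its coefficients are -/
theorem inv_of_cf {μ : Measure (AddCircle (1 : ℝ))} [IsProbabilityMeasure μ] {N : ℕ}
    (hN : ∀ j : ℤ, cf μ ((N : ℤ) * j) = cf μ j) : Inv N μ := by
  refine ⟨Helper17.TranslM.measurable_T N, ?_⟩
  have hp : IsProbabilityMeasure (μ.map (Helper17.TranslM.T N)) :=
    Measure.isProbabilityMeasure_map (Helper17.TranslM.measurable_T N).aemeasurable
  show μ.map (Helper17.TranslM.T N) = μ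
  apply Helper17.TranslM.eq_of_fourier
  intro m
  rw [integral_map (Helper17.TranslM.measurable_T N).aemeasurable
    (fourier m).continuous.aestronglyMeasurable]
  refine Eq.trans ?_ (hN m)
  refine integral_congr_ae (Eventually.of_forall fun x => ?_)
  simp only [Helper17.TranslM.T, fourier_apply]
  congr 1
  congr 1
  rw [← natCast_zsmul, smul_smul, mul_comm]

/-- the measure with the coefficients `φ (τ ^ (k n))`, for any trace -/
theorem exists_measure_mul (h2 : ∀ x : ℚ, s2 x = 2 * x) (h3 : ∀ x : ℚ, s3 x = 3 * x)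
    (ht : ∀ x : ℚ, t x = x + 1) {τ : GG s2 s3 t} (hτ : (τ : Equiv.Perm ℚ) = t)
    {φ : GG s2 s3 t → ℂ} (hφ : φ ∈ TR (GG s2 s3 t)) (k : ℕ) :
    ∃ μ : Measure (AddCircle (1 : ℝ)), IsProbabilityMeasure μ ∧
      (∀ n : ℤ, cf μ n = φ (τ ^ ((k : ℤ) * n))) ∧ Inv 2 μ ∧ Inv 3 μ := by
  have hφ1 : φ 1 = 1 := hφ.1
  have hφc := hφ.2.1
  have hFφ : Fact (PD φ) := ⟨hφ.2.2⟩
  obtain ⟨σ2, σ3, τ', hσ2, hσ3, hτ', e2, e3, ecomm, hgen⟩ := relations h2 h3 ht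
  have hττ' : τ' = τ := Subtype.ext (by rw [hτ', hτ])
  rw [hττ'] at e2 e3 hgen
  obtain ⟨μ, hμp, hμ⟩ := Helper17.Herglotz.herglotz (rf_pdz (φ := φ) τ 1)
    (by unfold rf; simp [hφ1])
  have hμ' : ∀ n : ℤ, ∫ x, (fourier n x : ℂ) ∂μ = φ (τ ^ n) := by
    intro n
    rw [hμ n]; unfold rf; rw [one_mul]
  have hp : IsProbabilityMeasure (μ.map (Helper17.TranslM.T k)) :=
    Measure.isProbabilityMeasure_map (Helper17.TranslM.measurable_T k).aemeasurable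
  have hk : ∀ n : ℤ, cf (μ.map (Helper17.TranslM.T k)) n = φ (τ ^ ((k : ℤ) * n)) := by
    intro n
    unfold cf
    rw [integral_map (Helper17.TranslM.measurable_T k).aemeasurable
      (fourier n).continuous.aestronglyMeasurable, ← hμ']
    refine integral_congr_ae (Eventually.of_forall fun x => ?_)
    simp only [Helper17.TranslM.T, fourier_apply]
    congr 1
    congr 1
    rw [← natCast_zsmul, smul_smul, mul_comm]
  refine ⟨μ.map (Helper17.TranslM.T k), hp, hk, inv_of_cf fun j => ?_, inv_of_cf fun j => ?_⟩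
  · rw [hk, hk, show (k : ℤ) * (((2 : ℕ) : ℤ) * j) = 2 * ((k : ℤ) * j) by push_cast; ring,
      ← Helper17.FU.conj_pow e2 ((k : ℤ) * j), hφc]
  · rw [hk, hk, show (k : ℤ) * (((3 : ℕ) : ℤ) * j) = 3 * ((k : ℤ) * j) by push_cast; ring,
      ← conj_pow3 e3 ((k : ℤ) * j), hφc]

/-- **clause (C)** -/
theorem uniform_traces (hUM : S_UM) (h2 : ∀ x : ℚ, s2 x = 2 * x) (h3 : ∀ x : ℚ, s3 x = 3 * x)
    (ht : ∀ x : ℚ, t x = x + 1) {τ : GG s2 s3 t} (hτ : (τ : Equiv.Perm ℚ) = t)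
    (ρ : ℕ → ℝ) (γ ε : ℝ) (hρ : Rate ρ γ) (hε : 0 < ε) : ∃ L : ℕ,
    ∀ φ ∈ traces (GG s2 s3 t), ∀ g k : ℕ, (g = 2 ∨ g = 3) → 1 ≤ k →
      Mixing4 τ φ g k ρ γ (Set.Iic L) → ‖φ (τ ^ k)‖ < ε ∨ ‖1 - φ (τ ^ k)‖ < ε := by
  obtain ⟨L, hL⟩ := hUM ρ γ ε hρ.1 hρ.2.1 hρ.2.2 hε
  refine ⟨L, fun φ hφ g k hg _ hmix => ?_⟩
  obtain ⟨μ, hμp, hcf, hi2, hi3⟩ := exists_measure_mul h2 h3 ht hτ (φ := φ) hφ k
  have h1 : cf μ 1 = φ (τ ^ k) := by
    rw [hcf, mul_one, zpow_natCast]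
  have h5 := hL μ hμp hi2 hi3 g hg (by
    intro b₁ b₂ b₃ b₄ D e₁ e₂ e₃ e₄ hb₁ hb₂ hb₃ hb₄ hD he₁ he₂ he₃ he₄ h12 h34 h13 h14 h23 h24
    have h6 := hmix b₁ hb₁ b₂ hb₂ b₃ hb₃ b₄ hb₄ D hD e₁ e₂ e₃ e₄ he₁ he₂ he₃ he₄ h12 h34 h13 h14
      h23 h24
    simp only [hcf, Nat.cast_one, one_mul]
    exact h6)
  rwa [h1] at h5

end Pool.Agent.Helper35.MX
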