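import Mathlib
import Pool.Agent.Helper35.MX.Erg

/-!
# MixingRates, TL3: windows, the equivalences for an extreme trace
-/

set_option autoImplicit false

open MeasureTheory Filter Helper17.FU Helper17.FUGroup Helper91.TTT
open scoped ENNReal

namespace Pool.Agent.Helper35.MX

open Pool.Agent.Helper87.MX
open Pool.Agent.Helper25.MX (psi psi_summable)

variable {s2 s3 t : Equiv.Perm ℚ}

/-- the variance does not change if the coefficients are those of the trace -/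
theorem var_trace {G : Type*} [Group G] {τ : G} {φ : G → ℂ} {μ : Measure (AddCircle (1 : ℝ))}
    (hμ : ∀ n : ℤ, ∫ x, (fourier n x : ℂ) ∂μ = φ (τ ^ n)) (k : ℕ) (F : Finset (ℕ × ℕ)) :
    var (cf μ) k F = (∑ p ∈ F, ∑ q ∈ F,
      (φ (τ ^ (k * (((2 ^ p.1 * 3 ^ p.2 : ℕ) : ℤ) - (2 ^ q.1 * 3 ^ q.2 : ℕ)) : ℤ))).re) /
        ((F.card : ℝ) ^ 2 * ‖φ (τ ^ k)‖ ^ 2) - 1 := by
  unfold var cf su
  simp only [hμ, zpow_natCast]

/-- **TL3.** -/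
theorem tfae_windows (hW5 : S_W5) (hWT : S_WT) (hVA : S_VA) (hCH : S_CH)
    (h2 : ∀ x : ℚ, s2 x = 2 * x) (h3 : ∀ x : ℚ, s3 x = 3 * x)
    (ht : ∀ x : ℚ, t x = x + 1) {τ : GG s2 s3 t} (hτ : (τ : Equiv.Perm ℚ) = t)
    {φ : GG s2 s3 t → ℂ} (hφ : φ ∈ Set.extremePoints ℝ (TR (GG s2 s3 t)))
    {μ : Measure (AddCircle (1 : ℝ))} [IsProbabilityMeasure μ]
    (hμ : ∀ n : ℤ, ∫ x, (fourier n x : ℂ) ∂μ = φ (τ ^ n))
    (k : ℕ) (η : ℝ) (hk : 1 ≤ k) (hφk : φ (τ ^ k) ≠ 0) (hη : 0 < η)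
    (hηk : Real.pi * (Real.exp η - 1) ≤ ‖φ (τ ^ k)‖ / 8) : List.TFAE [
      FiniteDimensional ℂ (Submodule.span ℂ {F : GG s2 s3 t → ℂ | ∃ n : GG s2 s3 t,
        (∃ r : ℚ, ∀ x : ℚ, (n : Equiv.Perm ℚ) x = x + r) ∧ F = fun x => φ (n * x)}),
      ∃ F : ℕ → Finset (ℕ × ℕ), (∀ j, Win η j (F j)) ∧ ∃ j₀ : ℕ, ∀ j, j₀ ≤ j →
        (∑ p ∈ F j, ∑ q ∈ F j,
          (φ (τ ^ (k * (((2 ^ p.1 * 3 ^ p.2 : ℕ) : ℤ) - (2 ^ q.1 * 3 ^ q.2 : ℕ)) : ℤ))).re) /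
            (((F j).card : ℝ) ^ 2 * ‖φ (τ ^ k)‖ ^ 2) - 1 = 0,
      ∃ F : ℕ → Finset (ℕ × ℕ), (∀ j, Win η j (F j)) ∧ Summable fun j =>
        (∑ p ∈ F j, ∑ q ∈ F j,
          (φ (τ ^ (k * (((2 ^ p.1 * 3 ^ p.2 : ℕ) : ℤ) - (2 ^ q.1 * 3 ^ q.2 : ℕ)) : ℤ))).re) /
            (((F j).card : ℝ) ^ 2 * ‖φ (τ ^ k)‖ ^ 2) - 1,
      ∃ F : ℕ → Finset (ℕ × ℕ), (∀ j, Win η j (F j)) ∧ Summable fun j =>
        μ.real {x | ‖φ (τ ^ k)‖ / 8 ≤ ‖wav k (F j) x - φ (τ ^ k)‖},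
      ∃ F : ℕ → Finset (ℕ × ℕ), (∀ j, Win η j (F j)) ∧ Summable fun j : ℕ =>
        psi (μ.real {x | ‖φ (τ ^ k)‖ / 8 ≤ ‖wav k (F j) x - φ (τ ^ k)‖}) /
          Real.log ((j : ℝ) + 2)] := by
  obtain ⟨hi2, hi3, hE⟩ := ergo_of_extreme h2 h3 ht hτ hφ hμ
  have hp : IsProbabilityMeasure μ := inferInstance
  have hc : cf μ k = φ (τ ^ k) := by
    unfold cf
    rw [hμ, zpow_natCast]
  have hck : cf μ k ≠ 0 := by rw [hc]; exact hφk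
  simp only [← var_trace hμ k]
  rw [← hc]
  tfae_have 1 → 2 := by
    intro hfd
    obtain ⟨F, hF, j₀, hj₀⟩ := hW5 μ hp hi2 hi3 hE
      (Pool.Agent.Helper40.LPA.finite_of_fd ht hτ hμ hfd) η k hη hk
    refine ⟨F, hF, j₀, fun j hj => ?_⟩
    have h1 := hVA μ hp hi2 hi3 k (F j) (hF j).1 hck
    have h2 : ∫ x, ‖wav k (F j) x - cf μ k‖ ^ 2 ∂μ = 0 := by
      rw [integral_eq_zero_of_ae]
      filter_upwards [hj₀ j hj] with x hx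
      rw [hx]
      simp
    rw [h2] at h1
    have h3 : ‖cf μ k‖ ^ 2 ≠ 0 := pow_ne_zero _ (norm_ne_zero_iff.2 hck)
    rcases mul_eq_zero.1 h1.symm with h | h
    · exact absurd h h3
    · exact h
  tfae_have 2 → 3 := by
    rintro ⟨F, hF, j₀, hj₀⟩
    refine ⟨F, hF, ?_⟩
    refine summable_of_ne_finset_zero (s := Finset.range j₀) fun j hj => ?_
    rw [Finset.mem_range, not_lt] at hj
    exact hj₀ j hj
  tfae_have 3 → 4 := by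
    rintro ⟨F, hF, hs⟩
    refine ⟨F, hF, ?_⟩
    exact Summable.of_nonneg_of_le (fun j => measureReal_nonneg)
      (fun j => hCH μ hp hi2 hi3 k (F j) (hF j).1 hck) (hs.mul_left 64)
  tfae_have 4 → 5 := by
    rintro ⟨F, hF, hs⟩
    exact ⟨F, hF, psi_summable (fun j => measureReal_nonneg) (fun j => measureReal_le_one) hs⟩
  tfae_have 5 → 1 := by
    rintro h
    by_contra hfd
    rw [← hc] at hηk
    obtain ⟨x, hx⟩ := hWT μ hp hi2 hi3 η k hη hk hck hηk h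
    exact hx (Pool.Agent.Helper40.LPA.no_atoms_of_infinite h2 h3 ht hτ hφ hμ hfd x)
  tfae_finish

end Pool.Agent.Helper35.MX
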